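import Mathlib

set_option autoImplicit false

namespace Pool.Agent.Results.MP_07bc1a_al.FinitelyPresentedCounterexample

/-- A monoid is acyclic if `u * x * v ≠ x` whenever `u` or `v` is not a unit. -/
def IsAcyclic (H : Type) [Monoid H] : Prop :=
  ∀ u v x : H, (¬ IsUnit u ∨ ¬ IsUnit v) → u * x * v ≠ x

/-- The principal two-sided ideal `HxH`. -/
def twoSided {H : Type} [Monoid H] (x : H) : Set H :=
  {y | ∃ u v : H, y = u * x * v}

/-- The six letters. -/
abbrev Letter : Type := Fin 6

/-- The four relations `ceb = cf`, `be = eb`, `bf = fb`, `ed = fda`, where the letters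
`a, b, c, d, e, f` are `0, 1, 2, 3, 4, 5`. -/
def rels : Set (FreeMonoid Letter × FreeMonoid Letter) :=
  {(FreeMonoid.of 2 * FreeMonoid.of 4 * FreeMonoid.of 1, FreeMonoid.of 2 * FreeMonoid.of 5),
   (FreeMonoid.of 1 * FreeMonoid.of 4, FreeMonoid.of 4 * FreeMonoid.of 1),
   (FreeMonoid.of 1 * FreeMonoid.of 5, FreeMonoid.of 5 * FreeMonoid.of 1),
   (FreeMonoid.of 4 * FreeMonoid.of 3, FreeMonoid.of 5 * FreeMonoid.of 3 * FreeMonoid.of 0)}

/-- The relation as a binary predicate. -/
def relP : FreeMonoid Letter → FreeMonoid Letter → Prop := fun p q => (p, q) ∈ rels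

/-- The monoid. -/
abbrev M : Type := PresentedMonoid relP

/-- Weight of the letters `c, d, e, f`. -/
def wt : Letter → Multiplicative ℕ :=
  ![Multiplicative.ofAdd 0, Multiplicative.ofAdd 0, Multiplicative.ofAdd 1,
    Multiplicative.ofAdd 1, Multiplicative.ofAdd 1, Multiplicative.ofAdd 1]

/-- Signed weight. -/
def sg : Letter → Multiplicative ℤ :=
  ![Multiplicative.ofAdd (-1), Multiplicative.ofAdd 1, Multiplicative.ofAdd 0,
    Multiplicative.ofAdd 0, Multiplicative.ofAdd 0, Multiplicative.ofAdd 1]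

/-- Left action on pairs. -/
def la : Letter → Function.End (ℕ × ℕ) :=
  ![fun s => (s.1, s.2 + 1), fun s => (s.1 + 1, s.2), fun _ => (0, 0),
    fun s => s, fun s => (s.1, s.2 + 1), fun s => s]

/-- Right action on states. -/
def ra : Letter → (Function.End (Bool × ℕ))ᵐᵒᵖ :=
  ![MulOpposite.op (fun s => if s.1 then s else (s.1, s.2 + 1)),
    MulOpposite.op (fun s => if s.1 then (s.1, s.2 + 1) else s),
    MulOpposite.op (fun _ => (false, 0)),
    MulOpposite.op (fun _ => (true, 0)),
    MulOpposite.op (fun s => s),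
    MulOpposite.op (fun s => s)]

lemma rel_cases {p q : FreeMonoid Letter} (h : relP p q) :
    (p = FreeMonoid.of 2 * FreeMonoid.of 4 * FreeMonoid.of 1 ∧
      q = FreeMonoid.of 2 * FreeMonoid.of 5) ∨
    (p = FreeMonoid.of 1 * FreeMonoid.of 4 ∧ q = FreeMonoid.of 4 * FreeMonoid.of 1) ∨
    (p = FreeMonoid.of 1 * FreeMonoid.of 5 ∧ q = FreeMonoid.of 5 * FreeMonoid.of 1) ∨
    (p = FreeMonoid.of 4 * FreeMonoid.of 3 ∧
      q = FreeMonoid.of 5 * FreeMonoid.of 3 * FreeMonoid.of 0) := by
  simpa [relP, rels, Prod.ext_iff] using h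

/-- Counting homomorphism. -/
def chi : M →* Multiplicative ℕ :=
  PresentedMonoid.lift wt (by
    intro p q h
    rcases rel_cases h with ⟨rfl, rfl⟩ | ⟨rfl, rfl⟩ | ⟨rfl, rfl⟩ | ⟨rfl, rfl⟩ <;>
      simp [wt])

/-- Signed counting homomorphism. -/
def phi : M →* Multiplicative ℤ :=
  PresentedMonoid.lift sg (by
    intro p q h
    rcases rel_cases h with ⟨rfl, rfl⟩ | ⟨rfl, rfl⟩ | ⟨rfl, rfl⟩ | ⟨rfl, rfl⟩ <;>
      simp [sg])

/-- Left action as a homomorphism. -/
def lact : M →* Function.End (ℕ × ℕ) :=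
  PresentedMonoid.lift la (by
    intro p q h
    rcases rel_cases h with ⟨rfl, rfl⟩ | ⟨rfl, rfl⟩ | ⟨rfl, rfl⟩ | ⟨rfl, rfl⟩ <;>
      simp [la] <;> rfl)

/-- Right action as a homomorphism. -/
def ract : M →* (Function.End (Bool × ℕ))ᵐᵒᵖ :=
  PresentedMonoid.lift ra (by
    intro p q h
    rcases rel_cases h with ⟨rfl, rfl⟩ | ⟨rfl, rfl⟩ | ⟨rfl, rfl⟩ | ⟨rfl, rfl⟩ <;>
      simp only [map_mul, FreeMonoid.lift_eval_of, ra] <;>
      apply MulOpposite.unop_injective <;> funext s <;> rcases s with ⟨_ | _, n⟩ <;> rfl)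

/-- A generator, as an element of the monoid. -/
abbrev g (l : Letter) : M := PresentedMonoid.of relP l

@[simp] lemma chi_g (l : Letter) : chi (g l) = wt l := rfl
@[simp] lemma phi_g (l : Letter) : phi (g l) = sg l := rfl
@[simp] lemma lact_g (l : Letter) : lact (g l) = la l := rfl
@[simp] lemma ract_g (l : Letter) : ract (g l) = ra l := rfl

lemma ind (p : M → Prop) (h1 : p 1) (h : ∀ (l : Letter) (x : M), p x → p (g l * x)) (x : M) :
    p x := by
  refine PresentedMonoid.inductionOn (δ := p) x (fun w => ?_)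
  induction w using FreeMonoid.inductionOn' with
  | one => exact h1
  | of_mul l w ih =>
    have : PresentedMonoid.mk relP (FreeMonoid.of l * w)
        = g l * PresentedMonoid.mk relP w := rfl
    rw [this]
    exact h l _ ih

lemma la_mono (l : Letter) (s t : ℕ × ℕ) (h : s ≤ t) : la l s ≤ la l t := by
  obtain ⟨a, b⟩ := s
  obtain ⟨c, d⟩ := t
  obtain ⟨h1, h2⟩ := Prod.mk_le_mk.1 h
  fin_cases l
  · exact Prod.mk_le_mk.2 ⟨h1, Nat.succ_le_succ h2⟩
  · exact Prod.mk_le_mk.2 ⟨Nat.succ_le_succ h1, h2⟩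
  · exact le_refl _
  · exact Prod.mk_le_mk.2 ⟨h1, h2⟩
  · exact Prod.mk_le_mk.2 ⟨h1, Nat.succ_le_succ h2⟩
  · exact Prod.mk_le_mk.2 ⟨h1, h2⟩

lemma lact_mul (x y : M) (s : ℕ × ℕ) : lact (x * y) s = lact x (lact y s) := by
  rw [map_mul]; rfl

lemma ract_mul (x y : M) (s : Bool × ℕ) :
    (ract (x * y)).unop s = (ract y).unop ((ract x).unop s) := by
  rw [map_mul]; rfl

lemma lact_one (s : ℕ × ℕ) : lact 1 s = s := by
  rw [map_one]; rfl

lemma lact_mono (x : M) : ∀ s t : ℕ × ℕ, s ≤ t → lact x s ≤ lact x t := by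
  induction x using ind with
  | h1 => intro s t h; rw [lact_one, lact_one]; exact h
  | h l x ih =>
    intro s t h
    rw [lact_mul, lact_mul, lact_g]
    exact la_mono l _ _ (ih s t h)

lemma key (x : M) : chi x = 1 → ∃ i j : ℕ, (∀ s, lact x s = (s.1 + i, s.2 + j)) ∧
    (∀ n, (ract x).unop (false, n) = (false, n + j)) ∧
    (∀ n, (ract x).unop (true, n) = (true, n + i)) ∧
    phi x = Multiplicative.ofAdd ((i : ℤ) - j) ∧ (i = 0 → j = 0 → x = 1) := by
  induction x using ind with
  | h1 =>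
    intro _
    refine ⟨0, 0, ?_, ?_, ?_, ?_, ?_⟩
    · intro s; rfl
    · intro n; rfl
    · intro n; rfl
    · simp
    · intro _ _; rfl
  | h l x ih =>
    intro hx
    rw [map_mul, chi_g] at hx
    have hx' : (Multiplicative.toAdd (wt l)) + Multiplicative.toAdd (chi x) = 0 := by
      have := congrArg Multiplicative.toAdd hx
      simpa using this
    have h0 : Multiplicative.toAdd (wt l) = 0 := by omega
    have h1 : chi x = 1 := by
      have : Multiplicative.toAdd (chi x) = 0 := by omega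
      exact Multiplicative.toAdd.injective this
    obtain ⟨i, j, hl, hf, ht, hp, hone⟩ := ih h1
    have e1 : ∀ r, lact (g l * x) r = la l (lact x r) := fun r => by
      rw [lact_mul, lact_g]
    have e2 : ∀ r, (ract (g l * x)).unop r = (ract x).unop ((ra l).unop r) := fun r => by
      rw [ract_mul, ract_g]
    fin_cases l
    · refine ⟨i, j + 1, ?_, ?_, ?_, ?_, ?_⟩
      · intro s; rw [e1, hl]; simp [la, add_assoc]
      · intro n; rw [e2]; simp only [ra]
        change (ract x).unop (false, n + 1) = _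
        rw [hf]; congr 1; omega
      · intro n; rw [e2]
        change (ract x).unop (true, n) = _
        rw [ht]
      · rw [map_mul, hp, phi_g]
        change Multiplicative.ofAdd (-1 : ℤ) * _ = _
        rw [← ofAdd_add]; congr 1; push_cast; ring
      · intro _ h; omega
    · refine ⟨i + 1, j, ?_, ?_, ?_, ?_, ?_⟩
      · intro s; rw [e1, hl]; simp [la, add_assoc]
      · intro n; rw [e2]
        change (ract x).unop (false, n) = _
        rw [hf]
      · intro n; rw [e2]
        change (ract x).unop (true, n + 1) = _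
        rw [ht]; congr 1; omega
      · rw [map_mul, hp, phi_g]
        change Multiplicative.ofAdd (1 : ℤ) * _ = _
        rw [← ofAdd_add]; congr 1; push_cast; ring
      · intro h; omega
    · exact absurd h0 (by decide)
    · exact absurd h0 (by decide)
    · exact absurd h0 (by decide)
    · exact absurd h0 (by decide)

lemma strong {u v x : M} (h : u * x * v = x) : u = 1 ∧ v = 1 := by
  have hc := congrArg (fun y => Multiplicative.toAdd (chi y)) h
  simp only [map_mul, toAdd_mul] at hc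
  have hu : chi u = 1 := Multiplicative.toAdd.injective (by
    change Multiplicative.toAdd (chi u) = 0; omega)
  have hv : chi v = 1 := Multiplicative.toAdd.injective (by
    change Multiplicative.toAdd (chi v) = 0; omega)
  obtain ⟨i, j, hl, hf, ht, hp, hone⟩ := key u hu
  obtain ⟨i', j', hl', hf', ht', hp', hone'⟩ := key v hv
  have hL : lact u (lact x (lact v (0, 0))) = lact x (0, 0) := by
    rw [← lact_mul, ← lact_mul, h]
  rw [hl] at hL
  have hm := lact_mono x (0, 0) (lact v (0, 0)) (by rw [hl']; constructor <;> simp)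
  obtain ⟨hm1, hm2⟩ := Prod.le_def.1 hm
  obtain ⟨hL1, hL2⟩ := Prod.ext_iff.1 hL
  simp only at hL1 hL2
  have hi : i = 0 := by omega
  have hj : j = 0 := by omega
  have hu1 : u = 1 := hone hi hj
  have hP : phi u * phi x * phi v = phi x := by rw [← map_mul, ← map_mul, h]
  rw [hp, hp'] at hP
  have hP' := congrArg Multiplicative.toAdd hP
  simp only [toAdd_mul, toAdd_ofAdd] at hP'
  have hij : i' = j' := by omega
  have hR : (ract v).unop ((ract x).unop ((ract u).unop (false, 0)))
      = (ract x).unop (false, 0) := by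
    rw [← ract_mul, ← ract_mul, ← mul_assoc, h]
  subst hu1
  have hR' : (ract v).unop ((ract x).unop (false, 0)) = (ract x).unop (false, 0) := hR
  refine ⟨rfl, ?_⟩
  revert hR'
  generalize (ract x).unop (false, 0) = st
  intro hR'
  rcases st with ⟨_ | _, n⟩
  · rw [hf'] at hR'
    have := (Prod.ext_iff.1 hR').2
    simp only at this
    exact hone' (by omega) (by omega)
  · rw [ht'] at hR'
    have := (Prod.ext_iff.1 hR').2
    simp only at this
    exact hone' (by omega) (by omega)

lemma unit_eq_one {u : M} (h : IsUnit u) : u = 1 := by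
  obtain ⟨v, hv⟩ := h.exists_right_inv
  have : u * 1 * v = 1 := by rw [mul_one, hv]
  exact (strong this).1

lemma rel1 : g 2 * g 4 * g 1 = g 2 * g 5 :=
  PresentedMonoid.mk_eq_mk_of_rel (rels := relP) (by simp [relP, rels])

lemma rel2 : g 1 * g 4 = g 4 * g 1 :=
  PresentedMonoid.mk_eq_mk_of_rel (rels := relP) (by simp [relP, rels])

lemma rel3 : g 1 * g 5 = g 5 * g 1 :=
  PresentedMonoid.mk_eq_mk_of_rel (rels := relP) (by simp [relP, rels])

lemma rel4 : g 4 * g 3 = g 5 * g 3 * g 0 :=
  PresentedMonoid.mk_eq_mk_of_rel (rels := relP) (by simp [relP, rels])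

/-- The chain elements `c b^k f d`. -/
def xs (k : ℕ) : M := g 2 * (g 1) ^ k * g 5 * g 3

lemma xs_step (k : ℕ) : xs k = xs (k + 1) * g 0 := by
  have c4 : ∀ n : ℕ, (g 1) ^ n * g 4 = g 4 * (g 1) ^ n := fun n =>
    (Commute.pow_left (show Commute (g 1) (g 4) from rel2) n).eq
  have c5 : ∀ n : ℕ, (g 1) ^ n * g 5 = g 5 * (g 1) ^ n := fun n =>
    (Commute.pow_left (show Commute (g 1) (g 5) from rel3) n).eq
  calc xs k = g 2 * (g 1) ^ k * g 5 * g 3 := rfl
    _ = g 2 * ((g 1) ^ k * g 5) * g 3 := by simp only [mul_assoc]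
    _ = g 2 * (g 5 * (g 1) ^ k) * g 3 := by rw [c5]
    _ = (g 2 * g 5) * (g 1) ^ k * g 3 := by simp only [mul_assoc]
    _ = (g 2 * g 4 * g 1) * (g 1) ^ k * g 3 := by rw [rel1]
    _ = g 2 * (g 4 * (g 1) ^ (k + 1)) * g 3 := by rw [pow_succ']; simp only [mul_assoc]
    _ = g 2 * ((g 1) ^ (k + 1) * g 4) * g 3 := by rw [c4]
    _ = g 2 * (g 1) ^ (k + 1) * (g 4 * g 3) := by simp only [mul_assoc]
    _ = g 2 * (g 1) ^ (k + 1) * (g 5 * g 3 * g 0) := by rw [rel4]
    _ = xs (k + 1) * g 0 := by simp only [xs, mul_assoc]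

lemma chain (k : ℕ) : twoSided (xs k) ⊂ twoSided (xs (k + 1)) := by
  refine ⟨?_, ?_⟩
  · rintro y ⟨u, v, rfl⟩
    refine ⟨u, g 0 * v, ?_⟩
    rw [xs_step]
    simp only [mul_assoc]
  · intro hsub
    obtain ⟨u, v, huv⟩ := hsub (show xs (k + 1) ∈ twoSided (xs (k + 1)) from
      ⟨1, 1, by simp⟩)
    rw [xs_step k] at huv
    have h : u * xs (k + 1) * (g 0 * v) = xs (k + 1) := by
      rw [← mul_assoc, mul_assoc u]
      exact huv.symm
    have h2 := (strong h).2
    have h3 : lact (g 0 * v) (0, 0) = (0, 0) := by rw [h2, lact_one]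
    rw [lact_mul, lact_g] at h3
    have h5 := (Prod.ext_iff.1 h3).2
    simp [la] at h5

lemma acyclic : IsAcyclic M := by
  intro u v x huv hx
  obtain ⟨h1, h2⟩ := strong (u := u) (v := v) (x := x) hx
  subst h1 h2
  rcases huv with h | h <;> exact h isUnit_one

/-- There is a finitely presented monoid which is acyclic, whose only unit is `1`, and which has
an infinite strictly ascending chain of principal two-sided ideals. -/
theorem result :
    ∃ (X : Type) (_ : Finite X) (R : Set (FreeMonoid X × FreeMonoid X)),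
      R.Finite ∧
      IsAcyclic (PresentedMonoid fun p q => (p, q) ∈ R) ∧
      (∀ u : PresentedMonoid fun p q => (p, q) ∈ R, IsUnit u → u = 1) ∧
      ∃ x : ℕ → PresentedMonoid fun p q => (p, q) ∈ R,
        ∀ k, twoSided (x k) ⊂ twoSided (x (k + 1)) :=
  ⟨Letter, inferInstance, rels, (((Set.finite_singleton _).insert _).insert _).insert _,
    acyclic, fun _ hu => unit_eq_one hu, xs, chain⟩

end Pool.Agent.Results.MP_07bc1a_al.FinitelyPresentedCounterexample
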